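import Pool.Agent.MP_c69980_ag.H43.Spec5

/-!
Log-general type produces a function dominating a given finite family.
-/

set_option autoImplicit false

namespace Pool.Agent.MP_c69980_ag.H43

open MvPolynomial H60 Finset

lemma algK_det {K : Type} [Field K] [Algebra ℂ K] {k : ℕ} {u : Fin k → K}
    (hu : IsTranscendenceBasis ℂ u) {D E : Fin k → Derivation ℂ K K} (hD : LinearIndependent K D)
    (hE : LinearIndependent K E) : ∃ A : K, A ≠ 0 ∧ ∀ f : Fin k → K,
      A * (Matrix.of fun i l => D i (f l)).det = (Matrix.of fun i l => E i (f l)).det := by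
  classical
  have d0 := det_ne hu hD
  have e0 := det_ne hu hE
  obtain ⟨T, hT⟩ : ∃ T : Matrix (Fin k) (Fin k) K,
      T * (Matrix.of fun i l => D i (u l)) = Matrix.of fun i l => E i (u l) :=
    ⟨_, Matrix.nonsing_inv_mul_cancel_right _ _ (Ne.isUnit d0)⟩
  have hs : ∀ (G : Fin k → Derivation ℂ K K) (g : K), (∑ i, G i) g = ∑ i, G i g := by
    intro G g
    have := congrFun (map_sum Derivation.coeFnAddMonoidHom G Finset.univ) g
    rwa [Finset.sum_apply] at this
  have key : ∀ f : Fin k → K,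
      T.det * (Matrix.of fun i l => D i (f l)).det = (Matrix.of fun i l => E i (f l)).det := by
    intro f
    rw [← Matrix.det_mul]
    congr 1
    ext i l
    have : E i = ∑ j, T i j • D j := der_ext hu fun j => by
      rw [hs]
      exact (congrFun (congrFun hT i) j).symm
    rw [Matrix.mul_apply, Matrix.of_apply]
    conv_rhs => rw [this, hs]
    rfl
  exact ⟨T.det, fun e => e0 (by rw [← key, e, zero_mul]), key⟩

theorem sAlgK : SAlgK := by
  intro n K _ _ U z hz hG
  classical
  obtain ⟨n', W, z', π, k', m, D, g, hW, hz', hk, hD, -, g0, hind, hx⟩ := hG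
  refine ⟨k', hk, fun E hE N ψ => ?_⟩
  have hb := hind.isTranscendenceBasis_of_trdeg_le_of_finite (by simp [hk])
  obtain ⟨A, hA0, hdet⟩ := algK_det hb hD hE
  have hz0 : z' ≠ 0 := by
    rintro rfl
    obtain ⟨P, hP⟩ : W.Nonempty := by
      by_contra hS
      simpa using (hz'.1 1 0 (isHomogeneous_one _ _)).2 fun P hP => (hS ⟨P, hP⟩).elim
    obtain ⟨i, hi⟩ := Function.ne_iff.1 P.rep_nonzero
    exact hi (by simpa using (hz'.1 (X i) 1 (isHomogeneous_X _ _)).1 (by simp) P hP)
  let good : ValuationSubring K → Prop := fun O => (∀ c, algebraMap ℂ K c ∈ O) ∧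
    ((∀ j f, E j f / f ∈ O) ∨ (Cen U z O ∧ ∀ j, ∀ f ∈ O, E j f ∈ O))
  have hC : ∀ O, good O → ∀ c, algebraMap ℂ K c ∈ O := fun O h => h.1
  have h1 : ∀ i O, good O → A ^ m * g i ∈ O := by
    intro i O hO
    obtain ⟨P, ⟨x, hPx⟩, hP, hP2⟩ := centre2 (AlgHom.id ℂ K) O (hC O hO) z' hz0
    simp only [AlgHom.id_apply] at hP hP2
    have hPW : ∀ x, P x → x ∈ W := by
      intro x hPx
      obtain ⟨S, hS, rfl⟩ := hW
      intro F hF
      obtain ⟨d, hd⟩ := hS F hF
      exact (hP x hPx).1 F d hd ((hz'.1 F d hd).mpr fun P hP => hP F hF)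
    rcases hO.2 with hlog | ⟨⟨H, d, j', hH, hj', hw', hu1, hU⟩, hEO'⟩
    · obtain ⟨-, -, -, s, r, G, e, hmax, hs0, -, -, -, hg⟩ := hx x (hPW x hPx)
      obtain ⟨b, hb, e1⟩ := nak hz' (hPW x hPx) D s hmax _ (hg i)
      have hs1 : ∀ l, (s l : K) ≠ 0 := fun l h => hs0 l (Subtype.ext h)
      have e2 : A * (Matrix.of fun i l => D i (s l)).det = (∏ l, (s l : K)) *
          (Matrix.of fun i l => E i (s l) / s l).det := by
        rw [hdet, ← Matrix.det_mul_row]
        congr 1
        ext i l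
        simp only [Matrix.of_apply]
        rw [mul_div_cancel₀ _ (hs1 l)]
      have e3 : A ^ m * g i = b * ((∏ l ∈ rᶜ, (s l : K)) *
          (Matrix.of fun i l => E i (s l) / s l).det) ^ m := by
        have hr : (∏ l ∈ r, (s l : K)) ^ m ≠ 0 :=
          pow_ne_zero _ (Finset.prod_ne_zero_iff.mpr fun l _ => hs1 l)
        apply mul_left_cancel₀ hr
        rw [mul_left_comm, e1, mul_left_comm, ← mul_pow, e2, mul_left_comm, ← mul_pow,
          ← mul_assoc, Finset.prod_mul_prod_compl]
      rw [e3]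
      refine mul_mem ((hP x hPx).2 _ hb) (pow_mem (mul_mem
        (prod_mem fun l _ => (hP x hPx).2 _ (s l).2) ?_) _)
      exact det_mem O.toSubring _ fun i l => hlog i _
    · have hy : ∀ y ∈ zcl U, ∀ (G : MvPolynomial (Fin n) ℂ) (d : ℕ), G.IsHomogeneous d →
          aeval z G = 0 → eval y.rep G = 0 := fun y hy G e hG h =>
        mem_zcl.mp hy G e hG ((hz.1 G e hG).mp h)
      obtain ⟨-, hx1, hx2, -⟩ := hx x (hPW x hPx)
      obtain ⟨j, hj⟩ := Function.ne_iff.mp (π x).rep_nonzero
      have hj'' : eval (π x).rep (X j : MvPolynomial (Fin n) ℂ) ≠ 0 := by simpa using hj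
      have hzj : z j ≠ 0 := fun h => hj'' (hy _ hx1 _ _ (isHomogeneous_X _ j) (by simpa using h))
      have hw : ∀ i, z i / z j ∈ locRing z' x := fun i => (hx2 _ (Algebra.subset_adjoin
        ⟨X i, X j, 1, isHomogeneous_X _ _, isHomogeneous_X _ _, hj'', by simp⟩)).1
      have hu' : aeval z H / z j ^ d ∈ locRing z' x := (hx2 _ (Algebra.subset_adjoin
        ⟨H, X j ^ d, d, hH, isHomogeneous_X_pow j d, by simpa using fun h => absurd h hj,
          by simp⟩)).1
      have hu2 : O.valuation (aeval z H / z j ^ d) = 1 := by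
        have a1 := (O.valuation_le_one_iff _).2 (hw' j)
        have a2 := (O.valuation_le_one_iff _).2 ((hP x hPx).2 _ (hw j'))
        rw [map_div₀, div_le_one₀ (by simpa [zero_lt_iff] using hj')] at a1
        rw [map_div₀, div_le_one₀ (by simpa [zero_lt_iff] using hzj)] at a2
        rw [← hu1, map_div₀, map_div₀, map_pow, map_pow, le_antisymm a1 a2]
      have hH0 : aeval z H ≠ 0 := fun h => by simp [h] at hu1
      obtain ⟨x2, hPx2, hw2, hu2⟩ := hP2 x hPx n _ hw _ hu' hu2
      obtain ⟨-, hy1, hy2, s, r, G, e, -, hs0, -, hG0, hG, hg⟩ := hx x2 (hPW x2 hPx2)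
      have hyU : π x2 ∈ U := hU _ hy1
        (eval_ne_of_dom (hy _ hy1) _ (fun v hv => (hy2 v hv).2) hH hH0 hzj hw2 hu2)
      have hs := ((hG x2 (hPW x2 hPx2) hG0).2).mp hyU
      have hs1 : ∏ j ∈ r, (s j : K) ≠ 0 :=
        Finset.prod_ne_zero_iff.mpr fun j _ h => hs0 j (Subtype.ext h)
      have h2 : g i ∈ pluri z' D m x2 := by
        have := Submodule.smul_mem _ (⟨_, hs⟩ ^ m : locRing z' x2) (hg i)
        rwa [Subalgebra.smul_def, smul_eq_mul, SubmonoidClass.coe_pow, ← mul_assoc, ← mul_pow,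
          inv_mul_cancel₀ hs1, one_pow, one_mul] at this
      generalize g i = w at h2
      induction h2 using Submodule.span_induction with
      | mem w hw =>
        obtain ⟨f, hf, rfl⟩ := hw
        rw [show A ^ m = ∏ _ : Fin m, A by simp, ← Finset.prod_mul_distrib]
        refine prod_mem fun j _ => ?_
        rw [hdet]
        exact det_mem O.toSubring _ fun i l => hEO' i _ ((hP x2 hPx2).2 _ (hf j l))
      | zero => simp
      | add w w' _ _ hw hw' => rw [mul_add]; exact add_mem hw hw'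
      | smul r w _ hw =>
        rw [Subalgebra.smul_def, smul_eq_mul, mul_left_comm]
        exact mul_mem ((hP x2 hPx2).2 _ r.2) hw
  let O : Subalgebra ℂ K :=
    { carrier := {g | ∀ V, good V → g ∈ V}
      mul_mem' := fun a b V h => mul_mem (a V h) (b V h)
      add_mem' := fun a b V h => add_mem (a V h) (b V h)
      algebraMap_mem' := fun c V h => hC V h c }
  have h2 : ∀ x : K, ∃ y : O, y ≠ 0 ∧ (y : K) * x ∈ O := fun x => by
    have a1 : Algebra.adjoin ℂ (Set.range fun i : Fin k' => g i.succ / g 0) ≤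
        (Subalgebra.algebraicClosure O K).restrictScalars ℂ := by
      rw [Algebra.adjoin_le_iff]
      rintro _ ⟨i, rfl⟩
      have n0 : A ^ m * g 0 ≠ 0 := mul_ne_zero (pow_ne_zero _ hA0) g0
      refine IsAlgebraic.of_smul (y := (⟨_, h1 0⟩ : O))
        (mem_nonZeroDivisors_of_ne_zero fun e => n0 (congrArg Subtype.val e)) ?_
      rw [Subalgebra.smul_def, smul_eq_mul, mul_assoc, mul_div_cancel₀ _ g0]
      exact isAlgebraic_algebraMap (⟨_, h1 i.succ⟩ : O)
    have a2 : IsAlgebraic (Subalgebra.algebraicClosure O K) x :=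
      (hb.isAlgebraic.isAlgebraic x).tower_top_of_subalgebra_le a1
    obtain ⟨y, y0, hy⟩ := (a2.restrictScalars O).exists_integral_multiple
    exact ⟨y, y0, fun V hV => val_int V (fun r : O => r.2 V hV) hy⟩
  choose y y0 hy using h2
  refine ⟨∏ i, y (ψ i), prod_ne_zero_iff.2 fun s _ e => y0 _ (Subtype.ext e),
    fun V h1 h2 s => ?_⟩
  rw [← prod_erase_mul _ _ (mem_univ s), mul_assoc]
  exact mul_mem (prod_mem fun t _ => (y _).2 V ⟨h1, h2⟩) (hy _ V ⟨h1, h2⟩)

end Pool.Agent.MP_c69980_ag.H43
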