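import Pool.Agent.MP_c69980_ag.H43.Spec4

/-!
The embedding of the residue differential field into `ℂ`.
-/

set_option autoImplicit false

namespace Pool.Agent.MP_c69980_ag.H43

open MvPolynomial H60 Finset Filter Topology Metric Real

variable {t a M : ℕ} {w : Fin M → Option (Fin t)} {Θ : Pt t a → Fin M → ℂ} {PP : PT M t a}
  {k : Subfield ℂ}

lemma embd_phi (h1 : SEmb) (A : AP w Θ k) :
    ∃ φ : A.V →+* ℂ, (∀ x, φ x = 0 ↔ x ∈ A.P) ∧ ∀ c : k, φ (A.ι c) = c := by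
  have := A.cnt
  have := A.prime
  have hk : Countable k := by
    refine Function.Injective.countable (f := A.ι) fun c c' e => Subtype.ext ?_
    rw [← A.ι_apply c 0 0, e, A.ι_apply]
  let : Algebra k (A.V ⧸ A.P) := ((Ideal.Quotient.mk A.P).comp A.ι).toAlgebra
  have : Countable (A.V ⧸ A.P) := Ideal.Quotient.mk_surjective.countable
  obtain ⟨ψ, hψ⟩ := h1.1 k hk (A.V ⧸ A.P) (Cardinal.mk_le_aleph0.trans Cardinal.aleph0_le_continuum)
  refine ⟨ψ.toRingHom.comp (Ideal.Quotient.mk A.P), fun x => ?_, fun c => ψ.commutes c⟩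
  rw [← Ideal.Quotient.eq_zero_iff_mem]
  exact map_eq_zero_iff ψ hψ

lemma embd_blk (A : AP w Θ k) (o : Option (Fin t)) : ∃ c, w c = o ∧ A.θ c ∉ A.P := by
  by_contra hc
  push Not at hc
  obtain ⟨b, hb⟩ := A.low
  have h1 : ∀ᶠ n in A.U, ∀ c, w c = o → ∀ z, ‖z‖ ≤ A.r n + A.η n →
      ‖(A.θ c).1 n z‖ ≤ exp (-A.τ n ^ (b + 1)) := by
    refine eventually_all.2 fun c => ?_
    by_cases e : w c = o
    · exact (A.tiny _ (hc c e) (b + 1)).mono fun n hn _ => hn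
    · exact Eventually.of_forall fun n h => absurd h e
  obtain ⟨n, ⟨b1, b2⟩, b3⟩ := ((hb.and h1).and (A.τtop.eventually_gt_atTop 1)).exists
  have z0 : ‖(0 : ℂ)‖ ≤ A.r n + A.η n := by
    rw [norm_zero]; linarith [A.r0 n, (A.num n).2.1]
  obtain ⟨c, e1, e2⟩ := b1 0 z0 o
  have e3 : exp (-A.τ n ^ b) ≤ exp (-A.τ n ^ (b + 1)) := e2.trans (b2 c e1 0 z0)
  rw [exp_le_exp, pow_succ] at e3
  nlinarith [pow_pos (zero_lt_one.trans b3) b]

/-- The chain rule along a disc. -/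
lemma embd_chain (g : GD w Θ PP k) {β : Cht M t} {p : ℂ → Pt t a} {z : ℂ}
    (hp : DifferentiableAt ℂ p z) (h : Ch w β (Θ (p z))) (x : CI M t) :
    deriv (fun s => Θ (p s) x.1) z * Θ (p z) (β x.2) -
        Θ (p z) x.1 * deriv (fun s => Θ (p s) (β x.2)) z =
      Θ (p z) (β x.2) ^ 2 *
        vf (PP β) (fun i => deriv (fun s => p s i) z) (co β (Θ (p z))) x := by
  have d : ∀ c, DifferentiableAt ℂ (fun q => Θ q c) (p z) := fun c =>
    differentiableAt_pi.1 (g.hol _) c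
  have d' : ∀ c, DifferentiableAt ℂ (fun s => Θ (p s) c) z := fun c => (d c).comp z hp
  have dc : DifferentiableAt ℂ (fun q => co β (Θ q) x) (p z) := by
    simp only [co, div_eq_mul_inv]
    exact (d _).mul ((d _).inv (h x.2).2)
  have e1 : (fun i => deriv (fun s => p s i) z) = deriv p z :=
    (deriv_pi (differentiableAt_pi.1 hp)).symm
  have e2 := (dc.hasFDerivAt.comp_hasDerivAt z hp.hasDerivAt).deriv
  have e3 : deriv (fun s => Θ (p s) x.1 / Θ (p s) (β x.2)) z = _ :=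
    ((d' x.1).hasDerivAt.div (d' (β x.2)).hasDerivAt (h x.2).2).deriv
  rw [e1, ← g.der β (p z) _ x h, ← e2]
  have e4 : (fun q => co β (Θ q) x) ∘ p = fun s => Θ (p s) x.1 / Θ (p s) (β x.2) := rfl
  rw [e4, e3, mul_div_cancel₀ _ (pow_ne_zero 2 (h x.2).2)]

lemma embd_id (g : GD w Θ PP k) (A : AP w Θ k) {β : Cht M t} (hβ : ∀ o, w (β o) = o) (x : CI M t)
    (N : ℕ) (H : Fin (t + a) → PR M) (hH : ∀ i, Cf k (H i))
    (hH' : ∀ i (y : Fin M → ℂ), (∀ u : CI M t, y (β u.2) ≠ 0) →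
      eval y (H i) = (∏ u : CI M t, y (β u.2)) ^ N * eval (co β y) (PP β i x)) :
    (∏ u : CI M t, A.θ (β u.2)) ^ (N + 1) *
        (A.D (A.θ x.1) * A.θ (β x.2) - A.θ x.1 * A.D (A.θ (β x.2))) =
      (∏ u : CI M t, A.θ (β u.2)) * A.θ (β x.2) ^ 2 * ∑ i, A.gg i * A.fe (H i) (hH i) := by
  ext n z
  rw [← A.evp_apply, ← A.evp_apply]
  simp only [map_mul, map_pow, map_prod, map_sub, map_sum]
  simp only [A.evp_apply, A.fe_apply, A.D_coe]
  have eθ : ∀ c, (A.θ c).1 n z = Θ (A.p n z) c := fun _ => rfl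
  have eg : ∀ i, (A.gg i).1 n z = dd A.R (fun n z => A.p n z i) n z := fun _ => rfl
  simp only [eθ, eg]
  by_cases hz : z ∈ ball (0 : ℂ) (A.R n)
  · by_cases h0 : ∏ u : CI M t, Θ (A.p n z) (β u.2) = 0
    · simp [h0]
    · have h1 : ∀ u : CI M t, Θ (A.p n z) (β u.2) ≠ 0 := fun u =>
        prod_ne_zero_iff.1 h0 u (mem_univ u)
      have h2 : Ch w β (Θ (A.p n z)) := fun o => ⟨hβ o, h1 (x.1, o)⟩
      have h3 := embd_chain g ((A.hp n).differentiableAt (isOpen_ball.mem_nhds hz)) h2 x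
      have e5 : ∀ c, (A.θ c).1 n = fun s => Θ (A.p n s) c := fun _ => rfl
      simp only [dd_in _ hz, e5, hH' _ _ h1]
      rw [h3, vf_eq, mul_sum, mul_sum, mul_sum]
      exact sum_congr rfl fun i _ => by ring
  · simp [dd_out _ hz]

lemma embd_tan (h4 : SHom) (g : GD w Θ PP k) (A : AP w Θ k) {φ : A.V →+* ℂ} {D : Der}
    {p₀ : Pt t a} {l : ℂ} (hE : A.Emb φ D p₀ l) : Tan Θ D p₀ fun i => φ (A.gg i) := by
  obtain ⟨β, hβ⟩ := g.ch p₀
  refine (g.tan_iff hβ).2 fun x => ?_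
  have hN : ∀ i, (PP β i x).totalDegree ≤ univ.sup fun i => (PP β i x).totalDegree := fun i =>
    le_sup (f := fun i => (PP β i x).totalDegree) (mem_univ i)
  generalize (univ.sup fun i => (PP β i x).totalDegree) = N at hN
  choose H a1 a2 a3 using fun i => h4 M (CI M t) Prod.fst (fun u => β u.2) (PP β i x) N (hN i)
  have hH : ∀ i, Cf k (H i) := fun i => a2 i k (g.cf β i x)
  have hH' : ∀ i (y : Fin M → ℂ), (∀ u : CI M t, y (β u.2) ≠ 0) →
      eval y (H i) = (∏ u : CI M t, y (β u.2)) ^ N * eval (co β y) (PP β i x) :=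
    fun i y hy => a3 i ℂ y hy
  have n1 : ∀ u : CI M t, φ (A.θ (β u.2)) ≠ 0 := fun u => by
    rw [hE.th]; exact mul_ne_zero hE.l0 (hβ u.2).2
  have n2 : ∏ u : CI M t, φ (A.θ (β u.2)) ≠ 0 := prod_ne_zero_iff.2 fun u _ => n1 u
  have e0 : co β (Θ p₀) = co β fun c => φ (A.θ c) := funext fun u => by
    simp only [co, hE.th]
    rw [mul_div_mul_left _ _ hE.l0]
  have key := congrArg φ (embd_id g A (fun o => (hβ o).1) x N H hH hH')
  simp only [map_mul, map_pow, map_prod, map_sub, map_sum, A.map_fe φ hE.cst, ← hE.der,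
    hH' _ (fun c => φ (A.θ c)) n1] at key
  rw [e0, vf_eq]
  have e1 : co β (fun c => φ (A.θ c)) x = φ (A.θ x.1) / φ (A.θ (β x.2)) := rfl
  rw [e1, Derivation.leibniz_div]
  have e2 : ∑ i, φ (A.gg i) * ((∏ u : CI M t, φ (A.θ (β u.2))) ^ N *
      eval (co β fun c => φ (A.θ c)) (PP β i x)) = (∏ u : CI M t, φ (A.θ (β u.2))) ^ N *
      ∑ i, φ (A.gg i) * eval (co β fun c => φ (A.θ c)) (PP β i x) := by
    rw [mul_sum]
    exact sum_congr rfl fun i _ => by ring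
  rw [e2] at key
  have n3 := n1 x
  apply mul_left_cancel₀ (pow_ne_zero (N + 1) n2)
  apply mul_left_cancel₀ (pow_ne_zero 2 n3)
  simp only [smul_eq_mul]
  have e3 : φ (A.θ (β x.2)) ^ 2 * (φ (A.θ (β x.2)))⁻¹ ^ 2 = 1 := by
    rw [← mul_pow, mul_inv_cancel₀ n3, one_pow]
  linear_combination key + (∏ u : CI M t, φ (A.θ (β u.2))) ^ (N + 1) *
    (φ (A.θ (β x.2)) * D (φ (A.θ x.1)) - φ (A.θ x.1) * D (φ (A.θ (β x.2)))) * e3

lemma embd_const (A : AP w Θ k) {φ : A.V →+* ℂ} {D : Der} {p₀ : Pt t a} {l : ℂ}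
    (hE : A.Emb φ D p₀ l) : ∀ x ∈ FL (A.KK φ) (Θ p₀), D x = 0 → x ∈ A.KK φ := by
  intro x hx h0
  have m : ∀ u, φ u ∈ Subfield.closure (φ.range : Set ℂ) := fun u =>
    Subfield.subset_closure ⟨u, rfl⟩
  have le : FL (A.KK φ) (Θ p₀) ≤ Subfield.closure (φ.range : Set ℂ) := by
    refine FL_le (Subfield.closure_mono ?_) ?_
    · rintro _ ⟨u, -, rfl⟩
      exact ⟨u, rfl⟩
    · rintro _ ⟨c, b, rfl⟩
      rw [← mul_div_mul_left _ _ hE.l0, ← hE.th, ← hE.th]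
      exact div_mem (m _) (m _)
  obtain ⟨y, hy, z, hz, rfl⟩ := Subfield.mem_closure_iff.1 (le hx)
  rw [Subring.closure_eq] at hy hz
  obtain ⟨u, rfl⟩ := hy
  obtain ⟨v, rfl⟩ := hz
  by_cases hv : φ v = 0
  · rw [hv, div_zero]; exact zero_mem _
  · have e1 : A.D u * v - u * A.D v ∈ A.P := by
      rw [← hE.ker, map_sub, map_mul, map_mul, ← hE.der, ← hE.der]
      rw [Derivation.leibniz_div, smul_eq_mul, mul_eq_zero] at h0
      rcases h0 with h0 | h0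
      · exact absurd h0 (pow_ne_zero 2 (inv_ne_zero hv))
      · simp only [smul_eq_mul] at h0
        linear_combination h0
    obtain ⟨c, c1, -, c3⟩ := A.const u v (fun e => hv ((hE.ker v).2 e)) e1
    rw [← hE.ker, map_sub, map_mul, sub_eq_zero] at c3
    rw [c3, mul_div_cancel_right₀ _ hv]
    exact Subfield.subset_closure ⟨c, c1, rfl⟩

theorem sEmbd (h1 : SEmb) (h2 : SExt) (h3 : SStab) (h4 : SHom) : SEmbd := by
  intro t a M w Θ PP k A g ml
  obtain ⟨φ, f1, f2⟩ := embd_phi h1 A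
  obtain ⟨D, hD⟩ := h2.1 A.V φ (φ.toAddMonoidHom.comp A.D) (fun x y => by
      show φ (A.D (x * y)) = φ x * φ (A.D y) + φ y * φ (A.D x)
      rw [A.leib, map_add, map_mul, map_mul]; ring)
    fun x hx => (f1 _).2 (A.DP ((f1 x).1 hx))
  have bl : ∀ o, ∃ b, w b = o ∧ φ (A.θ b) ≠ 0 := fun o =>
    let ⟨c, c1, c2⟩ := embd_blk A o
    ⟨c, c1, fun e => c2 ((f1 _).1 e)⟩
  obtain ⟨p₀, l, e⟩ := g.clh (fun c => φ (A.θ c)) bl fun F d _ hF h0 => by
    rw [← A.map_fe φ f2 F hF]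
    have : A.fe F hF = 0 := by
      ext n z
      rw [A.fe_apply, h0]
      rfl
    rw [this, map_zero]
  have th : ∀ c, φ (A.θ c) = l * Θ p₀ c := congrFun e
  have l0 : l ≠ 0 := by
    obtain ⟨b, -, hb⟩ := bl none
    rw [th] at hb
    exact left_ne_zero_of_mul hb
  have hE : A.Emb φ D p₀ l := ⟨f1, f2, hD, l0, th⟩
  have m : ∀ u ∈ A.S, φ u ∈ A.KK φ := fun u hu => Subfield.subset_closure ⟨u, hu, rfl⟩
  refine ⟨φ, D, p₀, l, hE, fun c hc => ?_, ?_, fun c hc => ?_, fun x hx => ?_,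
    fun i => m _ (A.gsm i), embd_tan h4 g A hE, embd_const A hE⟩
  · have := m _ (A.ι_S ⟨c, hc⟩)
    rwa [f2] at this
  · have := A.cnt
    exact closure_countable ((Set.to_countable _).image _)
  · have := hE.der (A.ι ⟨c, hc⟩)
    rwa [f2, A.D_ι, map_zero] at this
  · refine (h3 D).1 (φ '' A.S) (A.KK φ) Subfield.subset_closure ?_ x hx
      (isAlgebraic_algebraMap (⟨x, hx⟩ : Subfield.closure (φ '' A.S)))
    rintro _ ⟨u, hu, rfl⟩
    rw [hE.der]
    exact m _ (ml.dS u hu)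

end Pool.Agent.MP_c69980_ag.H43
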