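import Pool.Agent.MP_c69980_ag.H43.Spec10

/-!
The discriminant ideal of a differentially simple extension is the unit ideal.
-/

set_option autoImplicit false

namespace Pool.Agent.MP_c69980_ag.H43

open Finset Module

section Det
variable {E : Type} [Field E] (D : Derivation ℤ E E) {n : Type} [DecidableEq n]

theorem dsc_prod (f : n → E) (s : Finset n) :
    D (∏ i ∈ s, f i) = ∑ i ∈ s, D (f i) * ∏ k ∈ s.erase i, f k := by
  induction s using Finset.induction_on with
  | empty => simp
  | insert a s ha ih =>
    rw [prod_insert ha, D.leibniz, ih, sum_insert ha, erase_insert ha, smul_eq_mul, smul_eq_mul,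
      mul_sum, add_comm, mul_comm]
    congr 1
    refine sum_congr rfl fun i hi => ?_
    rw [erase_insert_of_ne (fun e => ha (by rw [e]; exact hi)),
      prod_insert fun e => ha (mem_of_mem_erase e)]
    ring

variable [Fintype n]

theorem dsc_det (A : Matrix n n E) :
    D A.det = ∑ j, (A.updateCol j fun i => D (A i j)).det := by
  simp only [Matrix.det_apply']
  rw [map_sum, sum_comm]
  refine sum_congr rfl fun σ _ => ?_
  rw [D.leibniz, D.map_intCast, smul_zero, add_zero, dsc_prod, smul_eq_mul, mul_sum]
  refine sum_congr rfl fun j _ => ?_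
  rw [← mul_prod_erase univ _ (mem_univ j), Matrix.updateCol_self]
  congr 2
  exact prod_congr rfl fun k hk => (Matrix.updateCol_ne (ne_of_mem_erase hk)).symm

theorem dsc_swap (A X : Matrix n n E) :
    ∑ j, (A.updateCol j fun i => X i j).det = ∑ i, (A.updateRow i (X i)).det := by
  simp only [← Matrix.cramer_apply, ← Matrix.cramer_transpose_apply,
    Matrix.cramer_eq_adjugate_mulVec, ← Matrix.adjugate_transpose, Matrix.mulVec, dotProduct,
    Matrix.transpose_apply]
  exact sum_comm

end Det

section Tr
variable {E L : Type} [Field E] [Field L] [Algebra E L] {n : Type} [Fintype n] [DecidableEq n]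
  {d : Derivation ℤ L L} {D : Derivation ℤ E E}

theorem dsc_smul (h : ∀ x, algebraMap E L (D x) = d (algebraMap E L x)) (a : E) (z : L) :
    d (a • z) = D a • z + a • d z := by
  simp only [Algebra.smul_def, d.leibniz, h, smul_eq_mul, Algebra.algebraMap_self, RingHom.id_apply]
  ring

omit [DecidableEq n] in
theorem dsc_mul (e : Basis n E L) (x z : L) (i : n) :
    e.repr (x * z) i = ∑ j, e.repr z j * e.repr (x * e j) i := by
  conv_lhs => rw [← e.sum_repr z]
  simp only [mul_sum, mul_smul_comm, map_sum, map_smul, Finsupp.coe_finsetSum, Finset.sum_apply,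
    Finsupp.smul_apply, smul_eq_mul]

theorem dsc_repr (h : ∀ x, algebraMap E L (D x) = d (algebraMap E L x)) (e : Basis n E L) (y : L)
    (i : n) : e.repr (d y) i = D (e.repr y i) + ∑ k, e.repr y k * e.repr (d (e k)) i := by
  conv_lhs => rw [← e.sum_repr y]
  simp only [map_sum, dsc_smul h, map_add, map_smul, Finsupp.coe_finsetSum, Finset.sum_apply,
    Finsupp.add_apply, Finsupp.smul_apply, smul_eq_mul, sum_add_distrib, e.repr_self,
    Finsupp.single_apply, mul_ite, mul_one, mul_zero, sum_ite_eq', mem_univ, if_true]

theorem dsc_trace (h : ∀ x, algebraMap E L (D x) = d (algebraMap E L x)) (e : Basis n E L)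
    (x : L) : D (Algebra.trace E L x) = Algebra.trace E L (d x) := by
  have k : ∀ i, e.repr (d x * e i) i = D (e.repr (x * e i) i) +
      ∑ k, e.repr (x * e i) k * e.repr (d (e k)) i -
      ∑ j, e.repr (d (e i)) j * e.repr (x * e j) i := fun i => by
    rw [← dsc_repr h, ← dsc_mul, d.leibniz, map_add, Finsupp.add_apply, smul_eq_mul, smul_eq_mul,
      mul_comm (e i)]
    ring
  simp only [Algebra.trace_eq_matrix_trace e, Matrix.trace, Matrix.diag,
    Algebra.leftMulMatrix_eq_repr_mul, k, sum_sub_distrib, sum_add_distrib, map_sum]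
  rw [sum_comm (f := fun i j => e.repr (d (e i)) j * e.repr (x * e j) i)]
  simp only [mul_comm (e.repr (d _) _)]
  ring

/-- the mixed trace matrix -/
noncomputable def dscM (E : Type) [Field E] [Algebra E L] (v v' : n → L) : Matrix n n E :=
  Matrix.of fun i j => Algebra.trace E L (v i * v' j)

theorem dsc_fac (e : Basis n E L) (v v' : n → L) : (dscM E v v').det =
    (e.toMatrix v).det * (dscM E e e).det * (e.toMatrix v').det := by
  rw [← Matrix.det_transpose (e.toMatrix v), ← Matrix.det_mul, ← Matrix.det_mul]
  congr 1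
  ext i j
  simp only [dscM, Matrix.of_apply, Matrix.mul_apply, Matrix.transpose_apply, Basis.toMatrix_apply]
  conv_lhs => rw [← e.sum_repr (v i), ← e.sum_repr (v' j)]
  simp only [mul_sum, sum_mul, mul_smul_comm, smul_mul_assoc, map_sum, map_smul, smul_eq_mul]
  refine sum_congr rfl fun k _ => sum_congr rfl fun l _ => ?_
  ring

theorem dsc_der (h : ∀ x, algebraMap E L (D x) = d (algebraMap E L x)) (e : Basis n E L)
    (v v' : n → L) : D (dscM E v v').det =
      ∑ j, (dscM E v (Function.update v' j (d (v' j)))).det +
        ∑ i, (dscM E (Function.update v i (d (v i))) v').det := by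
  have a : ∀ j, dscM E v (Function.update v' j (d (v' j))) =
      (dscM E v v').updateCol j fun i => Algebra.trace E L (v i * d (v' j)) := fun j => by
    ext i k
    by_cases c : k = j
    · simp [dscM, c]
    · simp [dscM, c]
  have b : ∀ i, dscM E (Function.update v i (d (v i))) v' =
      (dscM E v v').updateRow i (dscM E (fun i => d (v i)) v' i) := fun i => by
    ext k j
    by_cases c : k = i
    · simp [dscM, c]
    · simp [dscM, c]
  simp only [a, b]
  rw [← dsc_swap, dsc_det, ← sum_add_distrib]
  refine sum_congr rfl fun j _ => ?_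
  rw [← Matrix.det_updateCol_add]
  congr 2
  ext i
  simp only [dscM, Matrix.of_apply, Pi.add_apply]
  rw [dsc_trace h e, d.leibniz, map_add, smul_eq_mul, smul_eq_mul, mul_comm (v' j)]

end Tr

section Main
variable {R E L : Type} [CommRing R] [IsDomain R] [Field E] [Algebra R E] [IsFractionRing R E]
  [Field L] [Algebra E L] [Algebra R L] [IsScalarTower R E L]

theorem dsc_res (d : Derivation ℤ L L)
    (h : ∀ r : R, ∃ r' : R, algebraMap R L r' = d (algebraMap R L r)) :
    ∃ D : Derivation ℤ E E, ∀ x, algebraMap E L (D x) = d (algebraMap E L x) := by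
  have k : ∀ x : E, ∃ y : E, algebraMap E L y = d (algebraMap E L x) := fun x => by
    obtain ⟨a, b, -, rfl⟩ := IsFractionRing.div_surjective (A := R) x
    obtain ⟨a', ha⟩ := h a
    obtain ⟨b', hb⟩ := h b
    refine ⟨(algebraMap R E b)⁻¹ ^ 2 *
      (algebraMap R E b * algebraMap R E a' - algebraMap R E a * algebraMap R E b'), ?_⟩
    simp only [map_mul, map_pow, map_inv₀, map_sub, map_div₀, ← IsScalarTower.algebraMap_apply,
      d.leibniz_div, ha, hb, smul_eq_mul]
  choose D hD using k
  have inj := (algebraMap E L).injective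
  refine ⟨Derivation.mk' (AddMonoidHom.mk' D fun a b => inj ?_).toIntLinearMap fun a b => inj ?_,
    hD⟩
  · simp only [hD, map_add]
  · change algebraMap E L (D (a * b)) = algebraMap E L (a • D b + b • D a)
    simp only [hD, map_add, map_mul, d.leibniz, smul_eq_mul]

theorem dsc_int [IsIntegrallyClosed R] [FiniteDimensional E L] {n : Type} [Fintype n]
    [DecidableEq n] {v v' : n → L} (h : ∀ i, IsIntegral R (v i)) (h' : ∀ i, IsIntegral R (v' i)) :
    ∃ r : R, algebraMap R E r = (dscM E v v').det :=
  IsIntegrallyClosed.isIntegral_iff.1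
    (IsIntegral.det fun i j => Algebra.isIntegral_trace ((h i).mul (h' j)))

end Main

theorem sDsc : SDsc := by
  intro R E L _ _ _ _ _ _ _ _ _ _ _ _ ι d h p hp
  let S : Set R := {r | ∃ v v' : Fin (finrank E L) → L, (∀ i, IsIntegral R (v i)) ∧
    (∀ i, IsIntegral R (v' i)) ∧ algebraMap R E r = (dscM E v v').det}
  have inj : Function.Injective (algebraMap R E) := IsFractionRing.injective R E
  have inj2 : Function.Injective (algebraMap R L) := by
    rw [IsScalarTower.algebraMap_eq R E L]
    exact (algebraMap E L).injective.comp inj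
  obtain ⟨s, e0, he0⟩ := FiniteDimensional.exists_is_basis_integral R E L
  let e := e0.reindex (e0.indexEquiv (finBasis E L))
  have he : ∀ i, IsIntegral R (e i) := fun i => by
    simp only [e, Basis.reindex_apply]
    exact he0 _
  have up : ∀ (l : ι) (v : Fin (finrank E L) → L), (∀ i, IsIntegral R (v i)) →
      ∀ j i, IsIntegral R (Function.update v j (d l (v j)) i) := fun l v hv j i => by
    by_cases c : i = j
    · rw [c, Function.update_self]
      exact h.int l _ (hv j)
    · rw [Function.update_of_ne c]
      exact hv i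
  have st : ∀ l, ∀ r ∈ Ideal.span S, ∀ r', algebraMap R L r' = d l (algebraMap R L r) →
      r' ∈ Ideal.span S := by
    intro l r hr
    obtain ⟨D, hD⟩ := dsc_res (E := E) (d l) (h.pres l)
    induction hr using Submodule.span_induction with
    | mem x hx =>
      obtain ⟨v, v', hv, hv', ex⟩ := hx
      intro r' er
      choose a ha using fun j => dsc_int (E := E) hv (up l v' hv' j)
      choose b hb using fun j => dsc_int (E := E) (up l v hv j) hv'
      have k : r' = ∑ j, a j + ∑ j, b j := by
        refine inj ((algebraMap E L).injective ?_)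
        rw [← IsScalarTower.algebraMap_apply, er, IsScalarTower.algebraMap_apply R E L, ← hD, ex,
          dsc_der hD e]
        simp only [map_add, map_sum, ha, hb]
      rw [k]
      exact add_mem (sum_mem fun j _ => Ideal.subset_span ⟨_, _, hv, up l v' hv' j, ha j⟩)
        (sum_mem fun j _ => Ideal.subset_span ⟨_, _, up l v hv j, hv', hb j⟩)
    | zero =>
      intro r' er
      rw [map_zero, map_zero, ← map_zero (algebraMap R L)] at er
      rw [inj2 er]
      exact zero_mem _
    | add x y _ _ hx hy =>
      intro r' er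
      obtain ⟨x', ex⟩ := h.pres l x
      obtain ⟨y', ey⟩ := h.pres l y
      rw [map_add, map_add, ← ex, ← ey, ← map_add] at er
      rw [inj2 er]
      exact add_mem (hx x' ex) (hy y' ey)
    | smul a x mx hx =>
      intro r' er
      obtain ⟨x', ex⟩ := h.pres l x
      obtain ⟨a', ea⟩ := h.pres l a
      rw [smul_eq_mul, map_mul, (d l).leibniz, ← ex, ← ea, smul_eq_mul, smul_eq_mul, ← map_mul,
        ← map_mul, ← map_add] at er
      rw [inj2 er]
      exact add_mem (Ideal.mul_mem_left _ _ (hx x' ex)) (Ideal.mul_mem_right _ _ mx)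
  have top : Ideal.span S = ⊤ := by
    refine (h.sim _ st).resolve_left fun c => ?_
    obtain ⟨r, hr⟩ := dsc_int (E := E) he he
    have m : r ∈ Ideal.span S := Ideal.subset_span ⟨_, _, he, he, hr⟩
    rw [c, Ideal.mem_bot] at m
    rw [m, map_zero] at hr
    exact Algebra.discr_not_zero_of_basis E e hr.symm
  obtain ⟨r, ⟨v, v', hv, hv', er⟩, hr⟩ : ∃ r ∈ S, r ∉ p := by
    by_contra c
    push Not at c
    exact hp.ne_top (top_le_iff.1 (top ▸ Ideal.span_le.2 c))
  obtain ⟨b, hb⟩ := dsc_int (E := E) hv hv
  obtain ⟨b', hb'⟩ := dsc_int (E := E) hv' hv'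
  refine ⟨v, b, hv, hb, fun c => hr ?_⟩
  have k : r * r = b * b' := by
    refine inj ?_
    rw [map_mul, map_mul, er, hb, hb', dsc_fac e v v', dsc_fac e v v, dsc_fac e v' v']
    ring
  have m : r * r ∈ p := by
    rw [k]
    exact Ideal.mul_mem_right _ _ c
  exact (hp.mem_or_mem m).elim id id

end Pool.Agent.MP_c69980_ag.H43
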